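import Mathlib
import Pool.Agent.Lib.helper21.Kunen

set_option autoImplicit false

namespace Pool.Agent.H.MP_14ad8d_gt

open Set Filter Cardinal Pool.Agent.Lib.helper21.Kunen

abbrev Z : Type := ZMod 2

theorem z01 : ∀ a : Z, a ≠ 1 → a = 0 := by decide

open Classical in
noncomputable def ul (p : Ultrafilter ℕ) (a : ℕ → Z) : Z := if {n | a n = 1} ∈ p then 1 else 0

theorem ul_ev (p : Ultrafilter ℕ) (a : ℕ → Z) : ∀ᶠ n in (p : Filter ℕ), a n = ul p a := by
  by_cases h : {n | a n = 1} ∈ p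
  · rw [ul, if_pos h]
    exact h
  · rw [ul, if_neg h]
    exact mem_of_superset (Ultrafilter.compl_mem_iff_notMem.2 h) fun n hn => z01 _ hn

theorem ul_eq {p : Ultrafilter ℕ} {a : ℕ → Z} {c : Z} (h : ∀ᶠ n in (p : Filter ℕ), a n = c) :
    ul p a = c := by
  obtain ⟨n, h1, h2⟩ := ((ul_ev p a).and h).exists
  exact h1.symm.trans h2

theorem ul_add (p : Ultrafilter ℕ) (a b : ℕ → Z) :
    ul p (fun n => a n + b n) = ul p a + ul p b :=
  ul_eq (((ul_ev p a).and (ul_ev p b)).mono fun n h => by rw [h.1, h.2])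

theorem ul_const (p : Ultrafilter ℕ) (c : Z) : ul p (fun _ => c) = c :=
  ul_eq (Eventually.of_forall fun _ => rfl)

theorem many (Q : Set (Ultrafilter ℕ)) (hQ : #Q ≤ 𝔠) :
    ∃ q : Ultrafilter ℕ, (q : Filter ℕ) ≤ cofinite ∧ q ∉ Q := by
  classical
  obtain ⟨A, hA⟩ := exists_ind
  have h1 : ∀ x : Set ℕ → Prop, ∃ u : Ultrafilter ℕ, (u : Filter ℕ) ≤ cofinite ∧
      ∀ i, (A i ∈ u ↔ x i) := by
    intro x
    have hne : (⨅ s : Finset (Set ℕ), cofinite ⊓ 𝓟 (comb A s x)).NeBot := by
      refine iInf_neBot_of_directed (fun s t => ⟨s ∪ t, ?_, ?_⟩) fun s => ?_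
      · exact inf_le_inf_left _ (principal_mono.2 fun n hn i hi =>
          hn i (Finset.mem_union_left _ hi))
      · exact inf_le_inf_left _ (principal_mono.2 fun n hn i hi =>
          hn i (Finset.mem_union_right _ hi))
      · exact inf_principal_neBot_iff.2 (hA s x (subset_univ _))
    let u := Ultrafilter.of (⨅ s : Finset (Set ℕ), cofinite ⊓ 𝓟 (comb A s x))
    have hu : ∀ s, (u : Filter ℕ) ≤ cofinite ⊓ 𝓟 (comb A s x) := fun s =>
      (Ultrafilter.of_le _).trans (iInf_le _ s)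
    refine ⟨u, (hu ∅).trans inf_le_left, fun i => ?_⟩
    have h2 : comb A {i} x ∈ u := le_principal_iff.1 ((hu {i}).trans inf_le_right)
    constructor
    · intro h
      obtain ⟨n, h3, h4⟩ := Filter.nonempty_of_mem (inter_mem (f := (u : Filter ℕ)) h h2)
      exact (h4 i (Finset.mem_singleton_self _)).1 h3
    · intro h
      exact mem_of_superset h2 fun n hn => (hn i (Finset.mem_singleton_self _)).2 h
  choose u hu1 hu2 using h1
  by_contra hc
  push Not at hc
  have h3 : #(Set ℕ → Prop) ≤ #Q := by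
    refine mk_le_of_injective (f := fun x => ⟨u x, hc _ (hu1 x)⟩) fun x y h => ?_
    have h4 : u x = u y := congrArg Subtype.val h
    funext i
    exact propext (by rw [← hu2 x, ← hu2 y, h4])
  have h4 : #(Set ℕ → Prop) = 2 ^ 𝔠 := by
    have : #(Set ℕ → Prop) = #(Set (Set ℕ)) := rfl
    rw [this, mk_set, mk_set_nat]
  exact absurd (h4 ▸ h3.trans hQ) (not_le.2 (cantor _))

abbrev B : Type := (ℕ × ℕ) ⊕ ℕ

noncomputable def wt (q : ℕ → Ultrafilter ℕ) (h : ℕ × ℕ → Z) : B → Z :=
  Sum.elim h fun j => ul (q j) fun k => h (j, k)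

def Rep (p : Ultrafilter ℕ) (b : ℕ → B →₀ Z) (q : ℕ → Ultrafilter ℕ) : Prop :=
  ∀ h, ul p (fun n => Finsupp.linearCombination Z (wt q h) (b n)) = 0

theorem lc_add {ι : Type} (v w : ι → Z) (l : ι →₀ Z) :
    Finsupp.linearCombination Z (v + w) l =
      Finsupp.linearCombination Z v l + Finsupp.linearCombination Z w l := by
  simp [Finsupp.linearCombination_apply, Finsupp.sum, mul_add, Finset.sum_add_distrib]

theorem uniq {p : Ultrafilter ℕ} {b : ℕ → B →₀ Z} {q r : ℕ → Ultrafilter ℕ} (h1 : Rep p b q)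
    (h2 : Rep p b r) (h : ∀ j, q j ≠ r j) (w : B → Z) :
    ul p (fun n => Finsupp.linearCombination Z w (b n)) = 0 := by
  classical
  let m : (B → Z) → Z := fun w => ul p fun n => Finsupp.linearCombination Z w (b n)
  have hm : ∀ v w, m (v + w) = m v + m w := fun v w => by
    simp only [m, lc_add, ul_add]
  have h3 : ∀ j, ∃ S : Set ℕ, S ∈ q j ∧ S ∉ r j := by
    intro j
    by_contra hc
    push Not at hc
    exact h j (Ultrafilter.eq_of_le hc).symm
  choose S hS1 hS2 using h3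
  have h4 : ∀ d : ℕ → Z, m (Sum.elim (fun _ => 0) d) = 0 := by
    intro d
    let g : ℕ × ℕ → Z := fun x => if x.2 ∈ S x.1 then d x.1 else 0
    have e1 : wt q g = wt r g + Sum.elim (fun _ => (0 : Z)) d := by
      funext i
      rcases i with i | j
      · simp [wt]
      · have e2 : ul (q j) (fun k => g (j, k)) = d j :=
          ul_eq (mem_of_superset (hS1 j) fun k hk => if_pos hk)
        have e3 : ul (r j) (fun k => g (j, k)) = 0 :=
          ul_eq (mem_of_superset (Ultrafilter.compl_mem_iff_notMem.2 (hS2 j)) fun k hk => if_neg hk)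
        simp [wt, e2, e3]
    have e4 : m (wt q g) = 0 := h1 g
    have e5 : m (wt r g) = 0 := h2 g
    rw [e1, hm, e5, zero_add] at e4
    exact e4
  have e6 : w = wt q (fun x => w (.inl x)) +
      Sum.elim (fun _ => (0 : Z)) fun j => w (.inr j) - wt q (fun x => w (.inl x)) (.inr j) := by
    funext i
    rcases i with i | j <;> simp [wt]
  change m w = 0
  rw [e6, hm, h4, add_zero]
  exact h1 _

theorem core (p : Ultrafilter ℕ) : ∃ Bad : Set (Ultrafilter ℕ), #Bad ≤ 𝔠 ∧
    ∀ (b : ℕ → B →₀ Z) (q : ℕ → Ultrafilter ℕ), (∀ j, q j ∉ Bad) → LinearIndependent Z b →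
      ¬ Rep p b q := by
  classical
  have h1 : ∀ b : ℕ → B →₀ Z, ∃ r, (∃ q, Rep p b q) → Rep p b r := by
    intro b
    by_cases h : ∃ q, Rep p b q
    · exact ⟨h.choose, fun _ => h.choose_spec⟩
    · exact ⟨fun _ => p, fun h' => absurd h' h⟩
  choose r hr using h1
  refine ⟨range fun x : (ℕ → B →₀ Z) × ℕ => r x.1 x.2, mk_range_le.trans ?_, ?_⟩
  · have h2 : #(B →₀ Z) ≤ ℵ₀ := mk_le_aleph0
    rw [mk_prod, lift_id, lift_id, ← power_def, mk_nat]
    calc #(B →₀ Z) ^ ℵ₀ * ℵ₀ ≤ ℵ₀ ^ ℵ₀ * ℵ₀ := mul_le_mul' (power_le_power_right h2) le_rfl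
      _ = 𝔠 := by simp
  · intro b q hq hb hrep
    obtain ⟨L, hL⟩ := LinearMap.exists_extend
      ((Finsupp.linearCombination Z fun _ : ℕ => (1 : Z)).comp hb.repr)
    have h3 : ∀ n, L (b n) = 1 := by
      intro n
      have h4 := LinearMap.congr_fun hL ⟨b n, Submodule.subset_span (mem_range_self n)⟩
      simp only [LinearMap.comp_apply, Submodule.subtype_apply] at h4
      rw [h4, hb.repr_eq_single n _ rfl]
      simp
    have h5 := uniq hrep (hr b ⟨q, hrep⟩) (fun j h => hq j ⟨(b, j), h.symm⟩)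
      fun i => L (Finsupp.single i 1)
    have h6 : ∀ n, Finsupp.linearCombination Z (fun i => L (Finsupp.single i 1)) (b n) = 1 := by
      intro n
      have : Finsupp.linearCombination Z (fun i => L (Finsupp.single i 1)) = L := by
        ext i
        simp
      rw [this, h3]
    simp only [h6, ul_const] at h5
    exact one_ne_zero h5

end Pool.Agent.H.MP_14ad8d_gt
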