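import Mathlib
import Pool.Agent.H.MP_14ad8d_gt.A

set_option autoImplicit false

namespace Pool.Agent.H.MP_14ad8d_gt

open Set Filter Cardinal Topology

abbrev K : Type := Set (Set ℕ)

abbrev Sq : Type := ℕ → Finset K × Finset K

abbrev Cd : Type := ℕ → Option (Sq × ℕ)

abbrev Gen : Type := (Sq × ℕ) ⊕ Sq

theorem card_le : #(Cd × (Ultrafilter ℕ × ℕ)) ≤ #K := by
  have h1 : #K = 2 ^ 𝔠 := by rw [mk_set, mk_set_nat]
  have h0 : ℵ₀ ≤ #K := by
    rw [h1]
    exact aleph0_le_continuum.trans (cantor _).le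
  have : Infinite K := aleph0_le_mk_iff.1 h0
  have h2 : #K ^ ℵ₀ = #K := by
    rw [h1, ← power_mul, continuum_mul_aleph0]
  have h3 : #Sq = #K := by
    rw [← power_def, mk_prod, lift_id, mk_finset_of_infinite, mul_eq_self h0, mk_nat, h2]
  have h4 : #Cd = #K := by
    rw [← power_def, mk_option, mk_prod, lift_id, lift_id, h3, mk_nat,
      mul_eq_left h0 h0 aleph0_ne_zero, add_one_eq h0, h2]
  have h5 : #(Ultrafilter ℕ) ≤ #K :=
    mk_le_of_injective (f := fun p : Ultrafilter ℕ => (p : Filter ℕ).sets) fun a b h =>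
      Ultrafilter.coe_injective (Filter.filter_eq h)
  rw [mk_prod, mk_prod, lift_id, lift_id, lift_id, lift_id, h4, mk_nat]
  calc #K * (#(Ultrafilter ℕ) * ℵ₀) ≤ #K * (#K * #K) :=
        mul_le_mul' le_rfl (mul_le_mul' h5 h0)
    _ = #K := by rw [mul_eq_self h0, mul_eq_self h0]

open Classical in
noncomputable def vx (E : K → Cd) (U : Sq) (k : ℕ) (η : K) : Z :=
  if η ∈ (U k).1 then (if η ∈ (U k).2 then 1 else 0)
  else if ∃ n, E η n = some (U, k) then 1 else 0

noncomputable def val (E : K → Cd) (q : Sq → Ultrafilter ℕ) : Gen → K → Z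
  | .inl x => vx E x.1 x.2
  | .inr U => fun η => ul (q U) fun k => vx E U k η

def blk : Gen → Sq
  | .inl x => x.1
  | .inr U => U

def cd (c : Sq → ℕ) : Gen → B
  | .inl x => .inl (c x.1, x.2)
  | .inr U => .inr (c U)

theorem exists_en {α : Type} (S : Set α) (h : S.Countable) :
    ∃ e : ℕ → Option α, ∀ p, p ∈ S ↔ ∃ k, e k = some p := by
  rcases S.eq_empty_or_nonempty with rfl | h'
  · exact ⟨fun _ => none, fun _ => by simp⟩
  · obtain ⟨f, rfl⟩ := h.exists_eq_range h'
    exact ⟨fun k => some (f k), fun _ => by simp⟩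

theorem kill (s : Cd × (Ultrafilter ℕ × ℕ) → K) (hs : Function.Injective s) (E : K → Cd)
    (hE : ∀ x, E (s x) = x.1) (p : Ultrafilter ℕ) (Bad : Set (Ultrafilter ℕ)) (hB : #Bad ≤ 𝔠)
    (hBad : ∀ (b : ℕ → B →₀ Z) (q : ℕ → Ultrafilter ℕ), (∀ j, q j ∉ Bad) →
      LinearIndependent Z b → ¬ Rep p b q)
    (q : Sq → Ultrafilter ℕ)
    (hq : ∀ U, (∃ m k, s (fun _ => none, p, m) ∈ (U k).1) → q U ∉ Bad)
    (y : ℕ → Gen →₀ Z)
    (h1 : ∀ η, ul p (fun n => Finsupp.linearCombination Z (val E q) (y n) η) = 0)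
    (h2 : ∀ n, Finsupp.linearCombination Z (val E q) (y n) (s (fun _ => none, p, n)) = 1)
    (h3 : ∀ n, ∀ m < n,
      Finsupp.linearCombination Z (val E q) (y n) (s (fun _ => none, p, m)) = 0) : False := by
  classical
  let Ja : Set Sq := ⋃ n, blk '' (y n).support
  have hJa : Ja.Countable := countable_iUnion fun n => (Finset.countable_toSet _).image _
  let J : Set Sq := Ja ∩ {U | ∃ m k, s (fun _ => none, p, m) ∈ (U k).1}
  have hJ : J.Countable := hJa.mono inter_subset_left
  obtain ⟨c, hc⟩ := countable_iff_exists_injOn.1 hJ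
  obtain ⟨q0, -, hq0⟩ := many Bad hB
  let iv : ℕ → Sq := Function.invFunOn c J
  have hiv : ∀ U ∈ J, iv (c U) = U := fun U hU => hc.leftInvOn_invFunOn hU
  let q' : ℕ → Ultrafilter ℕ := fun j => if iv j ∈ J then q (iv j) else q0
  have hq' : ∀ U ∈ J, q' (c U) = q U := fun U hU => by
    simp only [q', hiv U hU, if_pos hU]
  let π : Gen → B →₀ Z := fun γ => if blk γ ∈ J then Finsupp.single (cd c γ) 1 else 0
  let b : ℕ → B →₀ Z := fun n => Finsupp.linearCombination Z π (y n)
  have key : ∀ (η : K) (w : B → Z), (∀ γ, blk γ ∈ Ja →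
      val E q γ η = if blk γ ∈ J then w (cd c γ) else 0) → ∀ n,
      Finsupp.linearCombination Z w (b n) = Finsupp.linearCombination Z (val E q) (y n) η := by
    intro η w h n
    simp only [b]
    rw [Finsupp.apply_linearCombination]
    simp only [Finsupp.linearCombination_apply, Finsupp.sum, Finset.sum_apply, Pi.smul_apply]
    refine Finset.sum_congr rfl fun γ hγ => ?_
    rw [h γ (mem_iUnion.2 ⟨n, γ, hγ, rfl⟩)]
    by_cases h' : blk γ ∈ J <;> simp [π, h']
  refine hBad b q' (fun j => ?_) ?_ fun h => ?_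
  · by_cases h : iv j ∈ J
    · simp only [q', if_pos h]
      exact hq _ h.2
    · simpa only [q', if_neg h] using hq0
  · let w : ℕ → B → Z := fun m => Sum.elim (fun x => vx E (iv x.1) x.2 (s (fun _ => none, p, m)))
      fun j => val E q (.inr (iv j)) (s (fun _ => none, p, m))
    have h4 : ∀ m n, Finsupp.linearCombination Z (w m) (b n) =
        Finsupp.linearCombination Z (val E q) (y n) (s (fun _ => none, p, m)) := by
      intro m
      refine key _ _ fun γ hγ => ?_
      by_cases h' : blk γ ∈ J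
      · rw [if_pos h']
        rcases γ with ⟨U, k⟩ | U
        · simp only [w, cd, Sum.elim_inl, hiv U h', val]
        · simp only [w, cd, Sum.elim_inr, hiv U h']
      · rw [if_neg h']
        have h5 : ∀ k, vx E (blk γ) k (s (fun _ => none, p, m)) = 0 := by
          intro k
          have h6 : s (fun _ => none, p, m) ∉ (blk γ k).1 := fun h => h' ⟨hγ, m, k, h⟩
          simp [vx, h6, hE]
        rcases γ with ⟨U, k⟩ | U
        · exact h5 k
        · exact ul_eq (Eventually.of_forall h5)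
    rw [linearIndependent_iff']
    intro t g hg
    by_contra hne
    push Not at hne
    let i := Nat.find hne
    have hi : i ∈ t ∧ g i ≠ 0 := Nat.find_spec hne
    have h5 := congrArg (Finsupp.linearCombination Z (w i)) hg
    rw [map_sum, map_zero, Finset.sum_eq_single i] at h5
    · rw [map_smul, h4, h2, smul_eq_mul, mul_one] at h5
      exact hi.2 h5
    · intro j hj hji
      rw [map_smul, h4]
      rcases lt_or_gt_of_ne hji with h | h
      · have : g j = 0 := by
          by_contra h6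
          exact Nat.find_min hne h ⟨hj, h6⟩
        rw [this, zero_smul]
      · rw [h3 j i h, smul_zero]
    · exact fun h => absurd hi.1 h
  · obtain ⟨e, he⟩ := exists_en {x : Sq × ℕ | x.1 ∈ J ∧ h (c x.1, x.2) = 1}
      ((hJ.prod (countable_univ (α := ℕ))).mono fun x hx => And.intro hx.1 trivial)
    have hN : (⋃ U ∈ Ja, ⋃ k, ((U k).1 : Set K)).Countable :=
      hJa.biUnion fun U _ => countable_iUnion fun k => Finset.countable_toSet _
    have hN' : ((fun u : Ultrafilter ℕ => s (e, u, 0)) ⁻¹'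
        (⋃ U ∈ Ja, ⋃ k, ((U k).1 : Set K))).Countable :=
      hN.preimage fun a b h => by simpa using hs h
    obtain ⟨u, -, hu⟩ := many _ ((le_aleph0_iff_set_countable.2 hN').trans aleph0_le_continuum)
    have h4 : ∀ U ∈ Ja, ∀ k, vx E U k (s (e, u, 0)) = if U ∈ J then h (c U, k) else 0 := by
      intro U hU k
      have h5 : s (e, u, 0) ∉ (U k).1 := fun h =>
        hu (mem_iUnion₂.2 ⟨U, hU, mem_iUnion.2 ⟨k, h⟩⟩)
      rw [vx, if_neg h5, hE]
      simp only [← he, mem_ofPred_eq]
      by_cases h6 : U ∈ J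
      · by_cases h7 : h (c U, k) = 1
        · simp [h6, h7]
        · simp [h6, z01 _ h7]
      · simp [h6]
    rw [← h1 (s (e, u, 0))]
    congr 1
    funext n
    refine key _ _ (fun γ hγ => ?_) n
    rcases γ with ⟨U, k⟩ | U
    · exact h4 U hγ k
    · simp only [val, blk, cd, wt, Sum.elim_inr, h4 U hγ]
      by_cases h6 : U ∈ J
      · simp only [if_pos h6, hq' U h6]
      · simp only [if_neg h6, ul_const]

theorem main : ∃ H : Submodule Z (K → Z),
      (∀ U : ℕ → Set H, (∀ n, IsOpen (U n) ∧ (U n).Nonempty) →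
        ∃ x : ℕ → H, (∀ n, x n ∈ U n) ∧ ∃ y : H, MapClusterPt y atTop x) ∧
      (∀ p : Ultrafilter ℕ, (p : Filter ℕ) ≤ cofinite →
        ∃ U : ℕ → Set H, (∀ n, IsOpen (U n) ∧ (U n).Nonempty) ∧
          ∀ x : ℕ → H, (∀ n, x n ∈ U n) →
            ∀ y : H, ¬ Tendsto x (p : Filter ℕ) (𝓝 y)) := by
  classical
  obtain ⟨s⟩ := (Cardinal.le_def _ _).1 card_le
  let E : K → Cd := fun η => (Function.invFun s η).1
  have hE : ∀ x, E (s x) = x.1 := fun x => by
    simp only [E, Function.leftInverse_invFun s.injective x]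
  choose Bad hB1 hB2 using core
  have hq : ∀ U : Sq, ∃ u : Ultrafilter ℕ, (u : Filter ℕ) ≤ cofinite ∧
      ∀ p, (∃ m k, s (fun _ => none, p, m) ∈ (U k).1) → u ∉ Bad p := by
    intro U
    have h1 : {p | ∃ m k, s (fun _ => none, p, m) ∈ (U k).1}.Countable := by
      have h2 : (⋃ k, ((U k).1 : Set K)).Countable :=
        countable_iUnion fun k => Finset.countable_toSet _
      refine ((h2.preimage s.injective).image fun x => x.2.1).mono ?_
      rintro p ⟨m, k, h⟩
      exact ⟨(fun _ => none, p, m), mem_iUnion.2 ⟨k, h⟩, rfl⟩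
    obtain ⟨u, hu, hu'⟩ := many (⋃ p : {p | ∃ m k, s (fun _ => none, p, m) ∈ (U k).1}, Bad p.1) (by
      refine (mk_iUnion_le_sum_mk).trans ?_
      refine (sum_le_sum _ (fun _ => 𝔠) fun p => hB1 _).trans ?_
      rw [sum_const']
      exact (mul_le_mul' (le_aleph0_iff_set_countable.2 h1) le_rfl).trans aleph0_mul_continuum.le)
    exact ⟨u, hu, fun p hp h => hu' (mem_iUnion.2 ⟨⟨p, hp⟩, h⟩)⟩
  choose q hq1 hq2 using hq
  let Φ := Finsupp.linearCombination Z (val E q)
  have hmem : ∀ γ, val E q γ ∈ LinearMap.range Φ := fun γ => ⟨Finsupp.single γ 1, by simp [Φ]⟩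
  refine ⟨LinearMap.range Φ, fun U hU => ?_, fun p hp => ?_⟩
  · have h1 : ∀ n, ∃ D : Finset K × Finset K, ∀ x : LinearMap.range Φ,
        (∀ η ∈ D.1, x.1 η = if η ∈ D.2 then 1 else 0) → x ∈ U n := by
      intro n
      obtain ⟨x, hx⟩ := (hU n).2
      obtain ⟨V, hV, hVU⟩ := (mem_nhds_induced _ _ _).1 ((hU n).1.mem_nhds hx)
      rw [nhds_pi, Filter.mem_pi'] at hV
      obtain ⟨D, t, ht, hD⟩ := hV
      refine ⟨(D, D.filter fun η => x.1 η = 1), fun z hz => hVU (hD fun η hη => ?_)⟩
      have h2 : z.1 η = x.1 η := by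
        rw [hz η hη]
        by_cases h : x.1 η = 1
        · rw [if_pos (Finset.mem_filter.2 ⟨hη, h⟩), h]
        · have h3 : η ∉ D.filter fun η => x.1 η = 1 := fun h' => h (Finset.mem_filter.1 h').2
          rw [if_neg h3, z01 _ h]
      rw [h2]
      exact mem_of_mem_nhds (ht η)
    choose D hD using h1
    refine ⟨fun n => ⟨_, hmem (.inl (D, n))⟩, fun n => hD n _ fun η hη => ?_,
      ⟨_, hmem (.inr D)⟩, ?_⟩
    · simp only [val, vx, if_pos hη]
    · have h2 : Tendsto (fun n => (⟨_, hmem (.inl (D, n))⟩ : LinearMap.range Φ)) (q D)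
          (𝓝 ⟨_, hmem (.inr D)⟩) := by
        rw [tendsto_subtype_rng, tendsto_pi_nhds]
        intro η
        rw [nhds_discrete, tendsto_pure]
        exact ul_ev _ _
      exact h2.mapClusterPt.mono (Nat.cofinite_eq_atTop ▸ hq1 D)
  · let ι : ℕ → K := fun m => s (fun _ => none, p, m)
    have hι : Function.Injective ι := fun a b h => by simpa using s.injective h
    refine ⟨fun n => {x | x.1 (ι n) = 1 ∧ ∀ m < n, x.1 (ι m) = 0}, fun n => ⟨?_, ?_⟩, ?_⟩
    · have h1 : ∀ (η : K) (z : Z), IsOpen {x : LinearMap.range Φ | x.1 η = z} := fun η z =>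
        (isOpen_discrete {z}).preimage (f := fun x : LinearMap.range Φ => x.1 η)
          ((continuous_apply η).comp continuous_subtype_val)
      refine (h1 _ _).inter ?_
      have : {x : LinearMap.range Φ | ∀ m < n, x.1 (ι m) = 0} =
          ⋂ m ∈ Finset.range n, {x | x.1 (ι m) = 0} := by
        ext x; simp
      change IsOpen {x : LinearMap.range Φ | ∀ m < n, x.1 (ι m) = 0}
      rw [this]
      exact isOpen_biInter_finset fun m _ => h1 _ _
    · refine ⟨⟨_, hmem (.inl (fun _ => ((Finset.range (n + 1)).image ι, {ι n}), 0))⟩, ?_,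
        fun m hm => ?_⟩
      · simp only [val, vx]
        rw [if_pos (Finset.mem_image_of_mem _ (Finset.self_mem_range_succ n)),
          if_pos (Finset.mem_singleton_self _)]
      · simp only [val, vx]
        rw [if_pos (Finset.mem_image_of_mem _ (Finset.mem_range.2 (hm.trans (Nat.lt_succ_self n)))),
          if_neg fun h => hm.ne (hι (Finset.mem_singleton.1 h))]
    · intro x hx y hy
      choose w hw using fun n => (x n).2
      obtain ⟨v, hv⟩ := y.2
      rw [tendsto_subtype_rng, tendsto_pi_nhds] at hy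
      have h1 : ∀ η, ∀ᶠ n in (p : Filter ℕ), (x n).1 η = y.1 η := fun η => by
        have := hy η
        rwa [nhds_discrete, tendsto_pure] at this
      have h2 : ∀ m, y.1 (ι m) = 0 := by
        intro m
        have h3 : ∀ᶠ n in (p : Filter ℕ), m < n :=
          hp (Nat.cofinite_eq_atTop ▸ eventually_gt_atTop m)
        obtain ⟨n, h4, h5⟩ := ((h1 (ι m)).and h3).exists
        rw [← h4]
        exact (hx n).2 m h5
      have h3 : ∀ n η, Finsupp.linearCombination Z (val E q) (w n - v) η = (x n).1 η - y.1 η := by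
        intro n η
        change Φ (w n - v) η = _
        rw [map_sub, hw, hv]
        rfl
      refine kill s s.injective E hE p (Bad p) (hB1 p) (hB2 p) q (fun U => hq2 U p)
        (fun n => w n - v) (fun η => ul_eq ((h1 η).mono fun n hn => ?_)) (fun n => ?_)
        fun n m hm => ?_
      · rw [h3, hn, sub_self]
      · rw [h3]
        change (x n).1 (ι n) - y.1 (ι n) = 1
        rw [(hx n).1, h2, sub_zero]
      · rw [h3]
        change (x n).1 (ι m) - y.1 (ι m) = 0
        rw [(hx n).2 m hm, h2, sub_zero]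

end Pool.Agent.H.MP_14ad8d_gt
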